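import Mathlib

/-!
# Infinitely many connected sporadic 3-astral 4-configurations

For `m = 30 q`, `q` even and not divisible by `17`, the symbol
`m#(10q + 1, 6q; 1, 12q; 10q - 1, 3)` belongs to a connected 3-astral 4-configuration. Its cohort
`{10q + 1, 10q - 1, 1}`, `{6q, 12q, 3}` satisfies the cosine identity because of
`4 cos x cos (π/3 - x) cos (π/3 + x) = cos 3x` and `4 cos (π/5) cos (2π/5) = 1`. It is neither
trivial nor in the families 1-4.
-/

set_option autoImplicit false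

open Complex

namespace Pool.Agent.Results.MP_abecca_co.InfinitelyManySporadic

/-! ## Definitions -/

/-- The rotation of the Euclidean plane `ℂ` about the centre `0` by the angle `2πk/m`. -/
noncomputable def rot (m : ℕ) (k : ℤ) (z : ℂ) : ℂ :=
  z * Complex.exp ((((k : ℝ) * (2 * Real.pi / m) : ℝ) : ℂ) * Complex.I)

/-- The vertex set of the regular `m`-gon with centre `0` and vertex `a`. -/
def polygon (m : ℕ) (a : ℂ) : Set ℂ := {z | ∃ k : ℤ, z = rot m k a}

/-- Straight lines of the plane. -/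
def IsLine (l : Set ℂ) : Prop := ∃ a v : ℂ, v ≠ 0 ∧ l = {z | ∃ t : ℝ, z = a + t * v}

/-- The elements of the dihedral group of order `2m` with centre `0` (the symmetry group of the
regular `m`-gon with vertex `1`): the rotations `rot m k` and the reflections `z ↦ rot m k (conj z)`. -/
def IsDihedral (m : ℕ) (g : ℂ → ℂ) : Prop :=
  (∃ k : ℤ, g = rot m k) ∨ (∃ k : ℤ, g = fun z => rot m k ((starRingEnd ℂ) z))

/-- `P 0, P 1, P 2` are the three orbits of points and `L 0, L 1, L 2` the three orbits of lines of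
a 3-astral 4-configuration with the symbol `m#(s 0, t 0; s 1, t 1; s 2, t 2)`. Indices are
modulo 3 (elements of `Fin 3`). -/
structure ThreeAstral (m : ℕ) (s t : Fin 3 → ℕ) (P : Fin 3 → Set ℂ) (L : Fin 3 → Set (Set ℂ)) :
    Prop where
  /-- `1 ≤ s_j, t_j < m / 2` -/
  span : ∀ j, 1 ≤ s j ∧ 2 * s j < m ∧ 1 ≤ t j ∧ 2 * t j < m
  /-- every orbit of points is the vertex set of a regular `m`-gon with centre `0` -/
  isPolygon : ∀ j, ∃ a : ℂ, a ≠ 0 ∧ P j = polygon m a
  /-- every orbit of points has `m` elements -/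
  ncard_P : ∀ j, (P j).ncard = m
  /-- the orbits of points are disjoint, so there are `3m` points -/
  disjoint_P : ∀ i j, i ≠ j → Disjoint (P i) (P j)
  /-- the lines are straight lines -/
  isLine : ∀ j, ∀ l ∈ L j, IsLine l
  /-- every orbit of lines has `m` elements -/
  ncard_L : ∀ j, (L j).ncard = m
  /-- the orbits of lines are disjoint, so there are `3m` lines -/
  disjoint_L : ∀ i j, i ≠ j → Disjoint (L i) (L j)
  /-- the dihedral group maps every `P j` to itself -/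
  sym_P : ∀ g, IsDihedral m g → ∀ j, ∀ z ∈ P j, g z ∈ P j
  /-- the dihedral group maps every `L j` to itself -/
  sym_L : ∀ g, IsDihedral m g → ∀ j, ∀ l ∈ L j, g '' l ∈ L j
  /-- the dihedral group acts transitively on every `P j` -/
  trans_P : ∀ j, ∀ z ∈ P j, ∀ w ∈ P j, ∃ g, IsDihedral m g ∧ g z = w
  /-- the dihedral group acts transitively on every `L j` -/
  trans_L : ∀ j, ∀ l ∈ L j, ∀ l' ∈ L j, ∃ g, IsDihedral m g ∧ g '' l = l'
  /-- every line of `L j` contains exactly two points of `P j`, and they span a diagonal of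
  span `s j`; exactly two points of `P (j + 1)`, and they span a diagonal of span `t j`; and no
  point of `P (j + 2)` -/
  line_P : ∀ j, ∀ l ∈ L j,
    (∃ z, l ∩ P j = {z, rot m (s j) z} ∧ z ≠ rot m (s j) z) ∧
    (∃ z, l ∩ P (j + 1) = {z, rot m (t j) z} ∧ z ≠ rot m (t j) z) ∧
    l ∩ P (j + 2) = ∅
  /-- every point of `P j` lies on exactly two lines of `L j`, every point of `P (j + 1)` lies on
  exactly two lines of `L j`, and no point of `P (j + 2)` lies on a line of `L j` -/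
  point_L : ∀ j,
    (∀ z ∈ P j, {l ∈ L j | z ∈ l}.ncard = 2) ∧
    (∀ z ∈ P (j + 1), {l ∈ L j | z ∈ l}.ncard = 2) ∧
    (∀ z ∈ P (j + 2), {l ∈ L j | z ∈ l} = ∅)

/-- The incidence graph of a set of points and a set of lines. -/
def incidenceGraph (X : Set ℂ) (Y : Set (Set ℂ)) : SimpleGraph (X ⊕ Y) :=
  SimpleGraph.fromRel (fun u v => ∃ (x : X) (y : Y), u = Sum.inl x ∧ v = Sum.inr y ∧
    (x : ℂ) ∈ (y : Set ℂ))

/-- `X` and `Y` are the points and the lines of a geometric configuration `(n_4)`. -/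
def IsConfigurationFour (n : ℕ) (X : Set ℂ) (Y : Set (Set ℂ)) : Prop :=
  X.ncard = n ∧ Y.ncard = n ∧ (∀ l ∈ Y, IsLine l) ∧ (∀ l ∈ Y, (l ∩ X).ncard = 4) ∧
    (∀ z ∈ X, {l ∈ Y | z ∈ l}.ncard = 4)

/-- One of the families 1-4, for the ordered pair `(S, T)` of multisets. -/
def InFamily (m : ℕ) (S T : Multiset ℤ) : Prop :=
  ∃ p q r : ℤ, 0 < p ∧ 0 < q ∧ 0 < r ∧
    (((m : ℤ) = 2 * q ∧ S = {q - p, q - 2 * r, p} ∧ T = {q - 2 * p, q - r, r}) ∨
     ((m : ℤ) = 3 * q ∧ S = {q + p, q - p, p} ∧ T = {q, q, 3 * p}) ∨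
     ((m : ℤ) = 6 * q ∧ S = {3 * q - p, r, p} ∧ T = {3 * q - 2 * p, 2 * q, r}) ∨
     ((m : ℤ) = 10 * q ∧ S = {5 * q - p, 2 * p, p} ∧ T = {|5 * q - 4 * p|, 4 * q, 2 * q}))

/-- The multiset `{s 0, s 1, s 2}`. -/
def entries (s : Fin 3 → ℕ) : Multiset ℤ := {(s 0 : ℤ), (s 1 : ℤ), (s 2 : ℤ)}

/-- The cohort `m#{{s 0, s 1, s 2}, {t 0, t 1, t 2}}` is sporadic: it is not trivial and not
systematic (the pair of multisets is unordered). -/
def Sporadic (m : ℕ) (s t : Fin 3 → ℕ) : Prop :=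
  entries s ≠ entries t ∧ ¬ InFamily m (entries s) (entries t) ∧
    ¬ InFamily m (entries t) (entries s)

/-! ## Galois conjugation -/

/-- Galois conjugation for sums of cosines of multiples of `2π/N`. -/
theorem galois_cos {N : ℕ} (hN : 0 < N) {a : ℕ} (ha : a.Coprime N) {ι : Type*} (S : Finset ι)
    (c : ι → ℤ) (n : ι → ℤ)
    (h0 : ∑ i ∈ S, (c i : ℝ) * Real.cos ((n i : ℝ) * (2 * Real.pi / N)) = 0) :
    ∑ i ∈ S, (c i : ℝ) * Real.cos ((a : ℝ) * (n i : ℝ) * (2 * Real.pi / N)) = 0 := by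
  have hNR : (N : ℝ) ≠ 0 := by exact_mod_cast hN.ne'
  have hNC : (N : ℂ) ≠ 0 := by exact_mod_cast hN.ne'
  set ζ : ℂ := Complex.exp (2 * Real.pi * Complex.I / N) with hζ
  have hprim : IsPrimitiveRoot ζ N := Complex.isPrimitiveRoot_exp N hN.ne'
  -- reduced exponents
  let r : ℤ → ℕ := fun k => (k % (N : ℤ)).toNat
  have hr : ∀ k : ℤ, ∃ j : ℤ, (r k : ℤ) = k - N * j := by
    intro k
    refine ⟨k / N, ?_⟩
    have h1 : 0 ≤ k % (N : ℤ) := Int.emod_nonneg _ (by exact_mod_cast hN.ne')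
    have h2 : (r k : ℤ) = k % (N : ℤ) := Int.toNat_of_nonneg h1
    rw [h2, Int.emod_def]
  have hpow : ∀ (b : ℕ) (k : ℤ), (ζ ^ b) ^ (r k) =
      Complex.exp ((((b : ℝ) * (k : ℝ) * (2 * Real.pi / N) : ℝ) : ℂ) * Complex.I) := by
    intro b k
    obtain ⟨j, hj⟩ := hr k
    have hj' : ((r k : ℕ) : ℂ) = (k : ℂ) - N * j := by exact_mod_cast congrArg (Int.cast : ℤ → ℂ) hj
    rw [hζ, ← Complex.exp_nat_mul, ← Complex.exp_nat_mul, hj', Complex.exp_eq_exp_iff_exists_int]
    refine ⟨-(b * j), ?_⟩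
    push_cast
    field_simp
    ring
  -- the polynomial
  let P : Polynomial ℚ := ∑ i ∈ S, Polynomial.C (c i : ℚ) *
    (Polynomial.X ^ (r (n i)) + Polynomial.X ^ (r (-(n i))))
  have hP : ∀ b : ℕ, Polynomial.aeval (ζ ^ b) P =
      ((2 * ∑ i ∈ S, (c i : ℝ) * Real.cos ((b : ℝ) * (n i : ℝ) * (2 * Real.pi / N)) : ℝ) : ℂ) := by
    intro b
    simp only [P, map_sum, map_mul, map_add, map_pow, Polynomial.aeval_X, Polynomial.aeval_C]
    rw [Finset.mul_sum]
    push_cast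
    apply Finset.sum_congr rfl
    intro i _
    rw [hpow, hpow, Complex.cos]
    have e1 : (((b : ℝ) * ((-(n i) : ℤ) : ℝ) * (2 * Real.pi / N) : ℝ) : ℂ) =
        -(((b : ℝ) * ((n i : ℤ) : ℝ) * (2 * Real.pi / N) : ℝ) : ℂ) := by
      push_cast; ring
    rw [e1]
    push_cast
    simp only [eq_ratCast]
    push_cast
    ring_nf
  have h1 : Polynomial.aeval ζ P = 0 := by
    have := hP 1
    rw [pow_one] at this
    rw [this]
    have h2 : ∑ i ∈ S, (c i : ℝ) * Real.cos (((1 : ℕ) : ℝ) * (n i : ℝ) * (2 * Real.pi / N)) = 0 := by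
      rw [← h0]
      apply Finset.sum_congr rfl
      intro i _
      rw [Nat.cast_one, one_mul]
    rw [h2]
    simp
  have h2 : Polynomial.aeval (ζ ^ a) P = 0 := by
    have hdvd : minpoly ℚ ζ ∣ P := minpoly.dvd ℚ ζ h1
    have hprim' : IsPrimitiveRoot (ζ ^ a) N := hprim.pow_of_coprime a ha
    have he : minpoly ℚ (ζ ^ a) = minpoly ℚ ζ := by
      rw [← Polynomial.cyclotomic_eq_minpoly_rat hprim hN,
        ← Polynomial.cyclotomic_eq_minpoly_rat hprim' hN]
    obtain ⟨Q, hQ⟩ := hdvd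
    rw [hQ, map_mul, ← he, minpoly.aeval, zero_mul]
  rw [hP a] at h2
  have h3 : 2 * ∑ i ∈ S, (c i : ℝ) * Real.cos ((a : ℝ) * (n i : ℝ) * (2 * Real.pi / N)) = 0 := by
    exact_mod_cast h2
  linarith


/-! ## Points and lines in polar coordinates -/

/-- the point with radius `r` and argument `a h` -/
noncomputable def pt (h r : ℝ) (a : ℤ) : ℂ :=
  (r : ℂ) * Complex.exp ((((a : ℝ) * h : ℝ) : ℂ) * Complex.I)

/-- the line with distance `d` and normal angle `b h` -/
noncomputable def ln (h d : ℝ) (b : ℤ) : Set ℂ :=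
  {z | (z * Complex.exp (-((((b : ℝ) * h : ℝ) : ℂ) * Complex.I))).re = d}

theorem pt_mem_ln (h r d : ℝ) (a b : ℤ) :
    pt h r a ∈ ln h d b ↔ r * Real.cos (((a - b : ℤ) : ℝ) * h) = d := by
  unfold pt ln
  rw [Set.mem_ofPred_eq, mul_assoc, ← Complex.exp_add]
  have e : (((a : ℝ) * h : ℝ) : ℂ) * Complex.I + -((((b : ℝ) * h : ℝ) : ℂ) * Complex.I) =
      ((((a - b : ℤ) : ℝ) * h : ℝ) : ℂ) * Complex.I := by
    push_cast; ring
  rw [e, Complex.re_ofReal_mul, Complex.exp_ofReal_mul_I_re]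

theorem norm_pt (h r : ℝ) (hr : 0 < r) (a : ℤ) : ‖pt h r a‖ = r := by
  unfold pt
  rw [norm_mul, Complex.norm_exp_ofReal_mul_I, mul_one, Complex.norm_real, Real.norm_of_nonneg hr.le]

theorem isLine_ln (h d : ℝ) (b : ℤ) : IsLine (ln h d b) := by
  set e : ℂ := Complex.exp ((((b : ℝ) * h : ℝ) : ℂ) * Complex.I) with he
  have he0 : e ≠ 0 := Complex.exp_ne_zero _
  have hinv : Complex.exp (-((((b : ℝ) * h : ℝ) : ℂ) * Complex.I)) = e⁻¹ := by
    rw [Complex.exp_neg]
  refine ⟨d * e, Complex.I * e, mul_ne_zero Complex.I_ne_zero he0, ?_⟩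
  ext z
  unfold ln
  rw [Set.mem_ofPred_eq, Set.mem_ofPred_eq, hinv]
  constructor
  · intro hz
    refine ⟨(z * e⁻¹).im, ?_⟩
    have h1 : z = (z * e⁻¹) * e := by field_simp
    have h2 : z * e⁻¹ = (d : ℂ) + ((z * e⁻¹).im : ℂ) * Complex.I := by
      conv_lhs => rw [← Complex.re_add_im (z * e⁻¹)]
      rw [hz]
    calc z = (z * e⁻¹) * e := h1
      _ = ((d : ℂ) + ((z * e⁻¹).im : ℂ) * Complex.I) * e := by rw [← h2]
      _ = _ := by ring
  · rintro ⟨t, rfl⟩
    have : (d * e + t * (Complex.I * e)) * e⁻¹ = (d : ℂ) + (t : ℂ) * Complex.I := by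
      field_simp
    rw [this]
    simp

theorem rot_pt (m : ℕ) (_hm : 0 < m) (r : ℝ) (a k : ℤ) :
    rot m k (pt (Real.pi / m) r a) = pt (Real.pi / m) r (a + 2 * k) := by
  unfold rot pt
  rw [mul_assoc, ← Complex.exp_add]
  congr 2
  push_cast
  ring

theorem conj_pt (h r : ℝ) (a : ℤ) : (starRingEnd ℂ) (pt h r a) = pt h r (-a) := by
  unfold pt
  rw [map_mul, Complex.conj_ofReal, ← Complex.exp_conj, map_mul, Complex.conj_ofReal, Complex.conj_I]
  congr 2
  push_cast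
  ring

theorem rot_mem_ln (m : ℕ) (_hm : 0 < m) (d : ℝ) (b k : ℤ) (z : ℂ) :
    rot m k z ∈ ln (Real.pi / m) d (b + 2 * k) ↔ z ∈ ln (Real.pi / m) d b := by
  unfold rot ln
  rw [Set.mem_ofPred_eq, Set.mem_ofPred_eq, mul_assoc, ← Complex.exp_add]
  have e : (((k : ℝ) * (2 * Real.pi / m) : ℝ) : ℂ) * Complex.I +
      -(((((b + 2 * k : ℤ) : ℝ) * (Real.pi / m) : ℝ) : ℂ) * Complex.I) =
      -((((b : ℝ) * (Real.pi / m) : ℝ) : ℂ) * Complex.I) := by
    push_cast; ring
  rw [e]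

theorem rot_rot_neg (m : ℕ) (k : ℤ) (z : ℂ) : rot m k (rot m (-k) z) = z := by
  unfold rot
  rw [mul_assoc, ← Complex.exp_add]
  have e : (((((-k : ℤ) : ℝ)) * (2 * Real.pi / m) : ℝ) : ℂ) * Complex.I +
      (((k : ℝ) * (2 * Real.pi / m) : ℝ) : ℂ) * Complex.I = 0 := by
    push_cast; ring
  rw [e, Complex.exp_zero, mul_one]

theorem rot_image_ln (m : ℕ) (hm : 0 < m) (d : ℝ) (b k : ℤ) :
    rot m k '' ln (Real.pi / m) d b = ln (Real.pi / m) d (b + 2 * k) := by
  ext w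
  constructor
  · rintro ⟨z, hz, rfl⟩
    exact (rot_mem_ln m hm d b k z).mpr hz
  · intro hw
    refine ⟨rot m (-k) w, ?_, rot_rot_neg m k w⟩
    rw [← rot_mem_ln m hm d b k, rot_rot_neg]
    exact hw

theorem conj_mem_ln (h d : ℝ) (b : ℤ) (z : ℂ) :
    (starRingEnd ℂ) z ∈ ln h d (-b) ↔ z ∈ ln h d b := by
  unfold ln
  rw [Set.mem_ofPred_eq, Set.mem_ofPred_eq]
  have e : (starRingEnd ℂ) z * Complex.exp (-(((((-b : ℤ) : ℝ) * h : ℝ) : ℂ) * Complex.I)) =
      (starRingEnd ℂ) (z * Complex.exp (-((((b : ℝ) * h : ℝ) : ℂ) * Complex.I))) := by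
    rw [map_mul, ← Complex.exp_conj, map_neg, map_mul, Complex.conj_ofReal, Complex.conj_I]
    congr 2
    push_cast
    ring
  rw [e, Complex.conj_re]

theorem conj_image_ln (h d : ℝ) (b : ℤ) : (fun z => (starRingEnd ℂ) z) '' ln h d b = ln h d (-b) := by
  ext w
  constructor
  · rintro ⟨z, hz, rfl⟩
    exact (conj_mem_ln h d b z).mpr hz
  · intro hw
    refine ⟨(starRingEnd ℂ) w, ?_, Complex.conj_conj w⟩
    rw [← conj_mem_ln h d b, Complex.conj_conj]
    exact hw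

/-- equality of cosines of multiples of `π/m` -/
theorem cos_eq_iff (m : ℕ) (hm : 0 < m) (u c : ℤ) :
    Real.cos ((u : ℝ) * (Real.pi / m)) = Real.cos ((c : ℝ) * (Real.pi / m)) ↔
      ∃ k : ℤ, u = 2 * m * k + c ∨ u = 2 * m * k - c := by
  have hmR : (m : ℝ) ≠ 0 := by exact_mod_cast hm.ne'
  have hpi := Real.pi_ne_zero
  rw [eq_comm, Real.cos_eq_cos_iff]
  constructor
  · rintro ⟨k, h | h⟩
    · refine ⟨k, Or.inl ?_⟩
      have : (u : ℝ) = 2 * m * k + c := by
        field_simp at h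
        linarith
      exact_mod_cast this
    · refine ⟨k, Or.inr ?_⟩
      have : (u : ℝ) = 2 * m * k - c := by
        field_simp at h
        linarith
      exact_mod_cast this
  · rintro ⟨k, h | h⟩
    · refine ⟨k, Or.inl ?_⟩
      rw [h]; push_cast; field_simp
    · refine ⟨k, Or.inr ?_⟩
      rw [h]; push_cast; field_simp

theorem pt_eq_iff (m : ℕ) (hm : 0 < m) (r : ℝ) (hr : 0 < r) (a a' : ℤ) :
    pt (Real.pi / m) r a = pt (Real.pi / m) r a' ↔ ∃ k : ℤ, a = a' + 2 * m * k := by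
  have hmR : (m : ℝ) ≠ 0 := by exact_mod_cast hm.ne'
  constructor
  · intro h
    have h1 : pt (Real.pi / m) r a' ∈ ln (Real.pi / m) r a' := by
      rw [pt_mem_ln, sub_self, Int.cast_zero, zero_mul, Real.cos_zero, mul_one]
    rw [← h, pt_mem_ln] at h1
    have h2 : Real.cos (((a - a' : ℤ) : ℝ) * (Real.pi / m)) =
        Real.cos (((0 : ℤ) : ℝ) * (Real.pi / m)) := by
      rw [Int.cast_zero, zero_mul, Real.cos_zero]
      have : r * (Real.cos (((a - a' : ℤ) : ℝ) * (Real.pi / m)) - 1) = 0 := by linarith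
      rcases mul_eq_zero.mp this with h3 | h3
      · exact absurd h3 hr.ne'
      · linarith
    obtain ⟨k, hk | hk⟩ := (cos_eq_iff m hm _ _).mp h2
    · exact ⟨k, by linarith⟩
    · exact ⟨k, by linarith⟩
  · rintro ⟨k, rfl⟩
    have hmC : (m : ℂ) ≠ 0 := by exact_mod_cast hm.ne'
    unfold pt
    congr 1
    rw [Complex.exp_eq_exp_iff_exists_int]
    refine ⟨k, ?_⟩
    push_cast
    field_simp

theorem ln_eq_iff (m : ℕ) (hm : 0 < m) (d : ℝ) (hd : 0 < d) (b b' : ℤ) :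
    ln (Real.pi / m) d b = ln (Real.pi / m) d b' ↔ ∃ k : ℤ, b = b' + 2 * m * k := by
  have hmR : (m : ℝ) ≠ 0 := by exact_mod_cast hm.ne'
  constructor
  · intro h
    have h1 : pt (Real.pi / m) d b ∈ ln (Real.pi / m) d b := by
      rw [pt_mem_ln, sub_self, Int.cast_zero, zero_mul, Real.cos_zero, mul_one]
    rw [h, pt_mem_ln] at h1
    have h2 : Real.cos (((b - b' : ℤ) : ℝ) * (Real.pi / m)) =
        Real.cos (((0 : ℤ) : ℝ) * (Real.pi / m)) := by
      rw [Int.cast_zero, zero_mul, Real.cos_zero]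
      have : d * (Real.cos (((b - b' : ℤ) : ℝ) * (Real.pi / m)) - 1) = 0 := by linarith
      rcases mul_eq_zero.mp this with h3 | h3
      · exact absurd h3 hd.ne'
      · linarith
    obtain ⟨k, hk | hk⟩ := (cos_eq_iff m hm _ _).mp h2
    · exact ⟨k, by linarith⟩
    · exact ⟨k, by linarith⟩
  · rintro ⟨k, rfl⟩
    have hmC : (m : ℂ) ≠ 0 := by exact_mod_cast hm.ne'
    unfold ln
    have : Complex.exp (-(((((b' + 2 * m * k : ℤ) : ℝ) * (Real.pi / m) : ℝ) : ℂ) * Complex.I)) =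
        Complex.exp (-((((b' : ℝ) * (Real.pi / m) : ℝ) : ℂ) * Complex.I)) := by
      rw [Complex.exp_eq_exp_iff_exists_int]
      refine ⟨-k, ?_⟩
      push_cast
      field_simp
      ring
    rw [this]

/-! ## The general construction -/

section construction

variable {m : ℕ} {s t : Fin 3 → ℕ} {ρ d : Fin 3 → ℝ} {e f : Fin 3 → ℤ}

/-- the orbits of points -/
noncomputable def orbP (m : ℕ) (ρ : Fin 3 → ℝ) (e : Fin 3 → ℤ) (j : Fin 3) : Set ℂ :=
  {z | ∃ k : ℤ, z = pt (Real.pi / m) (ρ j) (e j + 2 * k)}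

/-- the orbits of lines -/
noncomputable def orbL (m : ℕ) (d : Fin 3 → ℝ) (f : Fin 3 → ℤ) (j : Fin 3) : Set (Set ℂ) :=
  {l | ∃ k : ℤ, l = ln (Real.pi / m) (d j) (f j + 2 * k)}

/-- the numerical conditions -/
structure Data (m : ℕ) (s t : Fin 3 → ℕ) (ρ d : Fin 3 → ℝ) (e f : Fin 3 → ℤ) : Prop where
  hm : 0 < m
  hρ : ∀ j, 0 < ρ j
  hd : ∀ j, 0 < d j
  h1 : ∀ j, d j = ρ j * Real.cos ((s j : ℝ) * (Real.pi / m))
  h2 : ∀ j, d j = ρ (j + 1) * Real.cos ((t j : ℝ) * (Real.pi / m))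
  h3 : ∀ j, ∀ u : ℤ, ρ (j + 2) * Real.cos ((u : ℝ) * (Real.pi / m)) ≠ d j
  injρ : Function.Injective ρ
  injd : Function.Injective d
  pars : ∀ j, ∃ k : ℤ, f j - s j = e j + 2 * k
  part : ∀ j, ∃ k : ℤ, f j - t j = e (j + 1) + 2 * k
  span : ∀ j, 1 ≤ s j ∧ 2 * s j < m ∧ 1 ≤ t j ∧ 2 * t j < m

theorem mem_orbP {j : Fin 3} {a : ℤ} (h : ∃ k : ℤ, a = e j + 2 * k) :
    pt (Real.pi / m) (ρ j) a ∈ orbP m ρ e j := by
  obtain ⟨k, rfl⟩ := h
  exact ⟨k, rfl⟩

theorem mem_orbL {j : Fin 3} {b : ℤ} (h : ∃ k : ℤ, b = f j + 2 * k) :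
    ln (Real.pi / m) (d j) b ∈ orbL m d f j := by
  obtain ⟨k, rfl⟩ := h
  exact ⟨k, rfl⟩

theorem ncard_orbP (hm : 0 < m) {j : Fin 3} (hρ : 0 < ρ j) : (orbP m ρ e j).ncard = m := by
  have h : orbP m ρ e j = (fun k : ℕ => pt (Real.pi / m) (ρ j) (e j + 2 * (k : ℤ))) ''
      (Finset.range m : Set ℕ) := by
    ext z
    constructor
    · rintro ⟨k, rfl⟩
      have h1 : 0 ≤ k % (m : ℤ) := Int.emod_nonneg _ (by exact_mod_cast hm.ne')
      have h2 : k % (m : ℤ) < m := Int.emod_lt_of_pos _ (by exact_mod_cast hm)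
      refine ⟨(k % (m : ℤ)).toNat, ?_, ?_⟩
      · simp only [Finset.coe_range, Set.mem_Iio]
        omega
      · have h3 : (((k % (m : ℤ)).toNat : ℕ) : ℤ) = k % (m : ℤ) := Int.toNat_of_nonneg h1
        simp only [h3]
        rw [pt_eq_iff m hm _ hρ]
        refine ⟨-(k / m), ?_⟩
        rw [Int.emod_def]
        ring
    · rintro ⟨k, -, rfl⟩
      exact ⟨k, rfl⟩
  rw [h, Set.InjOn.ncard_image, Set.ncard_coe_finset, Finset.card_range]
  intro k hk k' hk' hkk
  simp only [Finset.coe_range, Set.mem_Iio] at hk hk'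
  simp only at hkk
  obtain ⟨c, hc⟩ := (pt_eq_iff m hm _ hρ _ _).mp hkk
  have h1 : (k : ℤ) - k' = m * c := by linarith
  have h2 : c = 0 := by
    by_contra hne
    rcases lt_or_gt_of_ne hne with h | h
    · have : (m : ℤ) * c ≤ m * (-1) := by
        apply mul_le_mul_of_nonneg_left _ (by positivity)
        omega
      omega
    · have : (m : ℤ) * 1 ≤ m * c := by
        apply mul_le_mul_of_nonneg_left _ (by positivity)
        omega
      omega
  rw [h2] at h1
  omega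

theorem ncard_orbL (hm : 0 < m) {j : Fin 3} (hd : 0 < d j) : (orbL m d f j).ncard = m := by
  have h : orbL m d f j = (fun k : ℕ => ln (Real.pi / m) (d j) (f j + 2 * (k : ℤ))) ''
      (Finset.range m : Set ℕ) := by
    ext z
    constructor
    · rintro ⟨k, rfl⟩
      have h1 : 0 ≤ k % (m : ℤ) := Int.emod_nonneg _ (by exact_mod_cast hm.ne')
      have h2 : k % (m : ℤ) < m := Int.emod_lt_of_pos _ (by exact_mod_cast hm)
      refine ⟨(k % (m : ℤ)).toNat, ?_, ?_⟩
      · simp only [Finset.coe_range, Set.mem_Iio]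
        omega
      · have h3 : (((k % (m : ℤ)).toNat : ℕ) : ℤ) = k % (m : ℤ) := Int.toNat_of_nonneg h1
        simp only [h3]
        rw [ln_eq_iff m hm _ hd]
        refine ⟨-(k / m), ?_⟩
        rw [Int.emod_def]
        ring
    · rintro ⟨k, -, rfl⟩
      exact ⟨k, rfl⟩
  rw [h, Set.InjOn.ncard_image, Set.ncard_coe_finset, Finset.card_range]
  intro k hk k' hk' hkk
  simp only [Finset.coe_range, Set.mem_Iio] at hk hk'
  simp only at hkk
  obtain ⟨c, hc⟩ := (ln_eq_iff m hm _ hd _ _).mp hkk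
  have h1 : (k : ℤ) - k' = m * c := by linarith
  have h2 : c = 0 := by
    by_contra hne
    rcases lt_or_gt_of_ne hne with h | h
    · have : (m : ℤ) * c ≤ m * (-1) := by
        apply mul_le_mul_of_nonneg_left _ (by positivity)
        omega
      omega
    · have : (m : ℤ) * 1 ≤ m * c := by
        apply mul_le_mul_of_nonneg_left _ (by positivity)
        omega
      omega
  rw [h2] at h1
  omega

/-- incidence of the point `a` and the line `b` if `d = r cos (c π/m)` -/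
theorem incid (hm : 0 < m) {r D : ℝ} (hr : 0 < r) {c : ℤ}
    (h : D = r * Real.cos ((c : ℝ) * (Real.pi / m))) (a b : ℤ) :
    pt (Real.pi / m) r a ∈ ln (Real.pi / m) D b ↔
      ∃ k : ℤ, a - b = 2 * m * k + c ∨ a - b = 2 * m * k - c := by
  rw [pt_mem_ln, h, ← cos_eq_iff m hm]
  constructor
  · intro h'
    exact mul_left_cancel₀ hr.ne' h'
  · intro h'
    rw [h']

/-- the two points of a polygon on a line -/
theorem line_inter (hm : 0 < m) {r D : ℝ} (hr : 0 < r) {c : ℕ} (hc : 1 ≤ c ∧ 2 * c < m)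
    (h : D = r * Real.cos ((c : ℝ) * (Real.pi / m))) (b : ℤ) (E : ℤ)
    (hE : ∃ k : ℤ, b - c = E + 2 * k) :
    ∃ z, ln (Real.pi / m) D b ∩ {z | ∃ k : ℤ, z = pt (Real.pi / m) r (E + 2 * k)} =
      {z, rot m c z} ∧ z ≠ rot m c z := by
  have h' : D = r * Real.cos (((c : ℤ) : ℝ) * (Real.pi / m)) := by rw [h]; norm_cast
  refine ⟨pt (Real.pi / m) r (b - c), ?_, ?_⟩
  · rw [rot_pt m hm]
    ext z
    constructor
    · rintro ⟨hz, k, rfl⟩
      obtain ⟨l, hl | hl⟩ := (incid hm hr h' _ _).mp hz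
      · right
        rw [Set.mem_singleton_iff, pt_eq_iff m hm r hr]
        exact ⟨l, by linarith⟩
      · left
        rw [pt_eq_iff m hm r hr]
        exact ⟨l, by linarith⟩
    · obtain ⟨k, hk⟩ := hE
      rintro (rfl | hz)
      · refine ⟨(incid hm hr h' _ _).mpr ⟨0, Or.inr (by ring)⟩, k, ?_⟩
        rw [hk]
      · rw [Set.mem_singleton_iff] at hz
        subst hz
        refine ⟨(incid hm hr h' _ _).mpr ⟨0, Or.inl (by ring)⟩, k + c, ?_⟩
        congr 1
        linarith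
  · rw [rot_pt m hm]
    intro heq
    obtain ⟨k, hk⟩ := (pt_eq_iff m hm r hr _ _).mp heq
    have h1 : (c : ℤ) = m * (-k) := by linarith
    rcases lt_trichotomy (-k) 0 with h2 | h2 | h2
    · have : (m : ℤ) * (-k) < 0 := mul_neg_of_pos_of_neg (by exact_mod_cast hm) h2
      omega
    · rw [h2] at h1; omega
    · have : (m : ℤ) * 1 ≤ m * (-k) := by
        apply mul_le_mul_of_nonneg_left _ (by positivity)
        omega
      omega

/-- the two lines of an orbit through a point -/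
theorem point_lines (hm : 0 < m) {r D : ℝ} (hr : 0 < r) (hD : 0 < D) {c : ℕ}
    (hc : 1 ≤ c ∧ 2 * c < m) (h : D = r * Real.cos ((c : ℝ) * (Real.pi / m))) (a : ℤ) (F : ℤ)
    (hF : ∃ k : ℤ, a - c = F + 2 * k) :
    {l ∈ {l | ∃ k : ℤ, l = ln (Real.pi / m) D (F + 2 * k)} | pt (Real.pi / m) r a ∈ l}.ncard = 2 := by
  have h' : D = r * Real.cos (((c : ℤ) : ℝ) * (Real.pi / m)) := by rw [h]; norm_cast
  have hset : {l ∈ {l | ∃ k : ℤ, l = ln (Real.pi / m) D (F + 2 * k)} | pt (Real.pi / m) r a ∈ l} =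
      {ln (Real.pi / m) D (a - c), ln (Real.pi / m) D (a + c)} := by
    ext l
    constructor
    · rintro ⟨⟨k, rfl⟩, hz⟩
      obtain ⟨l, hl | hl⟩ := (incid hm hr h' _ _).mp hz
      · left
        rw [ln_eq_iff m hm D hD]
        exact ⟨-l, by linarith⟩
      · right
        rw [Set.mem_singleton_iff, ln_eq_iff m hm D hD]
        exact ⟨-l, by linarith⟩
    · obtain ⟨k, hk⟩ := hF
      rintro (rfl | hz)
      · refine ⟨⟨k, by rw [hk]⟩, (incid hm hr h' _ _).mpr ⟨0, Or.inl (by ring)⟩⟩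
      · rw [Set.mem_singleton_iff] at hz
        subst hz
        refine ⟨⟨k + c, ?_⟩, (incid hm hr h' _ _).mpr ⟨0, Or.inr (by ring)⟩⟩
        congr 1
        linarith
  rw [hset, Set.ncard_pair]
  intro heq
  obtain ⟨k, hk⟩ := (ln_eq_iff m hm D hD _ _).mp heq
  have h1 : (c : ℤ) = m * (-k) := by linarith
  rcases lt_trichotomy (-k) 0 with h2 | h2 | h2
  · have : (m : ℤ) * (-k) < 0 := mul_neg_of_pos_of_neg (by exact_mod_cast hm) h2
    omega
  · rw [h2] at h1; omega
  · have : (m : ℤ) * 1 ≤ m * (-k) := by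
      apply mul_le_mul_of_nonneg_left _ (by positivity)
      omega
    omega

theorem threeAstral_of_data (D : Data m s t ρ d e f) :
    ThreeAstral m s t (orbP m ρ e) (orbL m d f) := by
  have hm := D.hm
  refine ⟨D.span, ?_, fun j => ncard_orbP hm (D.hρ j), ?_, ?_, fun j => ncard_orbL hm (D.hd j), ?_,
    ?_, ?_, ?_, ?_, ?_, ?_⟩
  · intro j
    refine ⟨pt (Real.pi / m) (ρ j) (e j), ?_, ?_⟩
    · intro h0
      have := norm_pt (Real.pi / m) (ρ j) (D.hρ j) (e j)
      rw [h0, norm_zero] at this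
      exact (D.hρ j).ne this
    · ext z
      constructor
      · rintro ⟨k, rfl⟩
        exact ⟨k, (rot_pt m hm _ _ _).symm⟩
      · rintro ⟨k, rfl⟩
        exact ⟨k, rot_pt m hm _ _ _⟩
  · intro i j hij
    rw [Set.disjoint_left]
    rintro z ⟨k, rfl⟩ ⟨k', hk'⟩
    have h1 := norm_pt (Real.pi / m) (ρ i) (D.hρ i) (e i + 2 * k)
    rw [hk', norm_pt _ _ (D.hρ j)] at h1
    exact hij (D.injρ h1).symm
  · rintro j l ⟨k, rfl⟩
    exact isLine_ln _ _ _
  · intro i j hij
    rw [Set.disjoint_left]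
    rintro l ⟨k, rfl⟩ ⟨k', hk'⟩
    -- compare the distances
    have key : ∀ (x y : ℝ), 0 < x → x < y → ∀ b b' : ℤ,
        ln (Real.pi / m) x b ≠ ln (Real.pi / m) y b' := by
      intro x y hx hxy b b' heq
      have h1 : pt (Real.pi / m) x b ∈ ln (Real.pi / m) x b := by
        rw [pt_mem_ln, sub_self, Int.cast_zero, zero_mul, Real.cos_zero, mul_one]
      rw [heq, pt_mem_ln] at h1
      have h2 := Real.cos_le_one (((b - b' : ℤ) : ℝ) * (Real.pi / m))
      nlinarith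
    rcases lt_trichotomy (d i) (d j) with h | h | h
    · exact key _ _ (D.hd i) h _ _ hk'
    · exact hij (D.injd h)
    · exact key _ _ (D.hd j) h _ _ hk'.symm
  · rintro g (⟨k, rfl⟩ | ⟨k, rfl⟩) j z ⟨l, rfl⟩
    · rw [rot_pt m hm]
      exact ⟨l + k, by congr 1; ring⟩
    · simp only
      rw [conj_pt, rot_pt m hm]
      exact ⟨k - l - e j, by congr 1; ring⟩
  · rintro g (⟨k, rfl⟩ | ⟨k, rfl⟩) j z ⟨l, rfl⟩
    · rw [rot_image_ln m hm]
      exact ⟨l + k, by congr 1; ring⟩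
    · have : (fun z => rot m k ((starRingEnd ℂ) z)) '' ln (Real.pi / m) (d j) (f j + 2 * l) =
          rot m k '' ((fun z => (starRingEnd ℂ) z) '' ln (Real.pi / m) (d j) (f j + 2 * l)) := by
        rw [Set.image_image]
      rw [this, conj_image_ln, rot_image_ln m hm]
      exact ⟨k - l - f j, by congr 1; ring⟩
  · rintro j z ⟨k, rfl⟩ w ⟨k', rfl⟩
    refine ⟨rot m (k' - k), Or.inl ⟨_, rfl⟩, ?_⟩
    rw [rot_pt m hm]
    congr 1
    ring
  · rintro j z ⟨k, rfl⟩ w ⟨k', rfl⟩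
    refine ⟨rot m (k' - k), Or.inl ⟨_, rfl⟩, ?_⟩
    rw [rot_image_ln m hm]
    congr 1
    ring
  · rintro j l ⟨k, rfl⟩
    obtain ⟨hs1, hs2, ht1, ht2⟩ := D.span j
    obtain ⟨k1, hk1⟩ := D.pars j
    obtain ⟨k2, hk2⟩ := D.part j
    refine ⟨?_, ?_, ?_⟩
    · exact line_inter hm (D.hρ j) ⟨hs1, hs2⟩ (D.h1 j) _ _ ⟨k1 + k, by linarith⟩
    · exact line_inter hm (D.hρ (j + 1)) ⟨ht1, ht2⟩ (D.h2 j) _ _ ⟨k2 + k, by linarith⟩
    · rw [Set.eq_empty_iff_forall_notMem]
      rintro z ⟨hz, k', rfl⟩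
      rw [pt_mem_ln] at hz
      exact D.h3 j _ hz
  · intro j
    obtain ⟨hs1, hs2, ht1, ht2⟩ := D.span j
    obtain ⟨k1, hk1⟩ := D.pars j
    obtain ⟨k2, hk2⟩ := D.part j
    refine ⟨?_, ?_, ?_⟩
    · rintro z ⟨k, rfl⟩
      exact point_lines hm (D.hρ j) (D.hd j) ⟨hs1, hs2⟩ (D.h1 j) _ _
        ⟨k - k1 - s j, by linarith⟩
    · rintro z ⟨k, rfl⟩
      exact point_lines hm (D.hρ (j + 1)) (D.hd j) ⟨ht1, ht2⟩ (D.h2 j) _ _
        ⟨k - k2 - t j, by linarith⟩
    · rintro z ⟨k, rfl⟩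
      rw [Set.eq_empty_iff_forall_notMem]
      rintro l ⟨⟨k', rfl⟩, hz⟩
      rw [pt_mem_ln] at hz
      exact D.h3 j _ hz

end construction

/-! ## Consequences: the configuration `(n_4)` and the incidence graph -/

theorem ncard_iUnion_fin3 {α : Type*} {A : Fin 3 → Set α} {n0 n1 n2 : ℕ} (j : Fin 3)
    (h0 : (A j).ncard = n0) (h1 : (A (j + 1)).ncard = n1) (h2 : (A (j + 2)).ncard = n2)
    (f0 : (A j).Finite) (f1 : (A (j + 1)).Finite) (f2 : (A (j + 2)).Finite)
    (hd : ∀ a b, a ≠ b → Disjoint (A a) (A b)) : (⋃ i, A i).ncard = n0 + n1 + n2 := by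
  have e : (⋃ i, A i) = (A j ∪ A (j + 1)) ∪ A (j + 2) := by
    ext x
    simp only [Set.mem_iUnion, Set.mem_union]
    constructor
    · rintro ⟨i, hi⟩
      have : i = j ∨ i = j + 1 ∨ i = j + 2 := by
        fin_cases i <;> fin_cases j <;> simp
      rcases this with h | h | h
      · left; left; rw [← h]; exact hi
      · left; right; rw [← h]; exact hi
      · right; rw [← h]; exact hi
    · rintro ((h | h) | h)
      · exact ⟨_, h⟩
      · exact ⟨_, h⟩
      · exact ⟨_, h⟩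
  have n01 : j ≠ j + 1 := by fin_cases j <;> simp
  have n02 : j ≠ j + 2 := by fin_cases j <;> simp
  have n12 : j + 1 ≠ j + 2 := by fin_cases j <;> simp
  rw [e, Set.ncard_union_eq _ (f0.union f1) f2, Set.ncard_union_eq (hd _ _ n01) f0 f1, h0, h1, h2]
  exact Set.disjoint_union_left.mpr ⟨hd _ _ n02, hd _ _ n12⟩

theorem isConfigurationFour {m : ℕ} (hm : 0 < m) {s t : Fin 3 → ℕ} {P : Fin 3 → Set ℂ}
    {L : Fin 3 → Set (Set ℂ)} (H : ThreeAstral m s t P L) :
    IsConfigurationFour (3 * m) (⋃ j, P j) (⋃ j, L j) := by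
  have fP : ∀ j, (P j).Finite := fun j => Set.finite_of_ncard_pos (by rw [H.ncard_P]; exact hm)
  have fL : ∀ j, (L j).Finite := fun j => Set.finite_of_ncard_pos (by rw [H.ncard_L]; exact hm)
  refine ⟨?_, ?_, ?_, ?_, ?_⟩
  · rw [ncard_iUnion_fin3 0 (H.ncard_P _) (H.ncard_P _) (H.ncard_P _) (fP _) (fP _) (fP _)
      H.disjoint_P]
    ring
  · rw [ncard_iUnion_fin3 0 (H.ncard_L _) (H.ncard_L _) (H.ncard_L _) (fL _) (fL _) (fL _)
      H.disjoint_L]
    ring
  · intro l hl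
    obtain ⟨j, hj⟩ := Set.mem_iUnion.mp hl
    exact H.isLine j l hj
  · intro l hl
    obtain ⟨j, hj⟩ := Set.mem_iUnion.mp hl
    obtain ⟨⟨z, hz, hz'⟩, ⟨w, hw, hw'⟩, h3⟩ := H.line_P j l hj
    rw [Set.inter_iUnion]
    rw [ncard_iUnion_fin3 (A := fun i => l ∩ P i) j (n0 := 2) (n1 := 2) (n2 := 0)
      (by rw [hz]; exact Set.ncard_pair hz')
      (by rw [hw]; exact Set.ncard_pair hw')
      (by rw [h3]; exact Set.ncard_empty _)
      ((fP _).inter_of_right _) ((fP _).inter_of_right _) ((fP _).inter_of_right _)]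
    intro a b hab
    exact (H.disjoint_P a b hab).mono Set.inter_subset_right Set.inter_subset_right
  · intro z hz
    obtain ⟨j, hj⟩ := Set.mem_iUnion.mp hz
    have e : {l ∈ ⋃ i, L i | z ∈ l} = ⋃ i, {l ∈ L i | z ∈ l} := by
      ext l
      simp only [Set.mem_iUnion, Set.mem_ofPred_eq]
      constructor
      · rintro ⟨⟨i, hi⟩, h⟩
        exact ⟨i, hi, h⟩
      · rintro ⟨i, hi, h⟩
        exact ⟨⟨i, hi⟩, h⟩
    have j1 : j + 1 + 2 = j := by fin_cases j <;> rfl
    have j2 : j + 2 + 1 = j := by fin_cases j <;> rfl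
    have g0 := (H.point_L j).1 z hj
    have g1 : {l ∈ L (j + 1) | z ∈ l} = ∅ := (H.point_L (j + 1)).2.2 z (by rw [j1]; exact hj)
    have g2 := (H.point_L (j + 2)).2.1 z (by rw [j2]; exact hj)
    rw [e, ncard_iUnion_fin3 (A := fun i => {l ∈ L i | z ∈ l}) j (n0 := 2) (n1 := 0) (n2 := 2)
      g0 (by rw [g1]; exact Set.ncard_empty _) g2
      ((fL _).subset (Set.sep_subset _ _)) ((fL _).subset (Set.sep_subset _ _))
      ((fL _).subset (Set.sep_subset _ _))]
    intro a b hab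
    exact (H.disjoint_L a b hab).mono (Set.sep_subset _ _) (Set.sep_subset _ _)

/-- connectedness if `s 1 = 1` -/
theorem connected_of_data {m : ℕ} {s t : Fin 3 → ℕ} {ρ d : Fin 3 → ℝ} {e f : Fin 3 → ℤ}
    (D : Data m s t ρ d e f) (hs1 : s 1 = 1) :
    (incidenceGraph (⋃ j, orbP m ρ e j) (⋃ j, orbL m d f j)).Connected := by
  have hm := D.hm
  set X : Set ℂ := ⋃ j, orbP m ρ e j with hX
  set Y : Set (Set ℂ) := ⋃ j, orbL m d f j with hY
  set Γ := incidenceGraph X Y with hΓ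
  have adj : ∀ (x : X) (y : Y), (x : ℂ) ∈ (y : Set ℂ) → Γ.Reachable (Sum.inl x) (Sum.inr y) := by
    intro x y h
    apply SimpleGraph.Adj.reachable
    rw [hΓ, incidenceGraph, SimpleGraph.fromRel_adj]
    exact ⟨by simp, Or.inl ⟨x, y, rfl, rfl, h⟩⟩
  have inc1 : ∀ (j : Fin 3) (a b : ℤ), a - b = s j ∨ b - a = s j →
      pt (Real.pi / m) (ρ j) a ∈ ln (Real.pi / m) (d j) b := by
    intro j a b h
    have h' : d j = ρ j * Real.cos ((((s j : ℕ) : ℤ) : ℝ) * (Real.pi / m)) := by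
      rw [D.h1 j]; norm_cast
    rw [incid hm (D.hρ j) h']
    rcases h with h | h
    · exact ⟨0, Or.inl (by linarith)⟩
    · exact ⟨0, Or.inr (by linarith)⟩
  have inc2 : ∀ (j : Fin 3) (a b : ℤ), a - b = t j ∨ b - a = t j →
      pt (Real.pi / m) (ρ (j + 1)) a ∈ ln (Real.pi / m) (d j) b := by
    intro j a b h
    have h' : d j = ρ (j + 1) * Real.cos ((((t j : ℕ) : ℤ) : ℝ) * (Real.pi / m)) := by
      rw [D.h2 j]; norm_cast
    rw [incid hm (D.hρ (j + 1)) h']
    rcases h with h | h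
    · exact ⟨0, Or.inl (by linarith)⟩
    · exact ⟨0, Or.inr (by linarith)⟩
  -- vertices
  let x : (j : Fin 3) → (a : ℤ) → (∃ k : ℤ, a = e j + 2 * k) → X := fun j a h =>
    ⟨pt (Real.pi / m) (ρ j) a, Set.mem_iUnion.mpr ⟨j, mem_orbP h⟩⟩
  let y : (j : Fin 3) → (b : ℤ) → (∃ k : ℤ, b = f j + 2 * k) → Y := fun j b h =>
    ⟨ln (Real.pi / m) (d j) b, Set.mem_iUnion.mpr ⟨j, mem_orbL h⟩⟩
  have X1 : ∀ (j : Fin 3) (a b : ℤ) (ha hb), a - b = s j ∨ b - a = s j →
      Γ.Reachable (Sum.inl (x j a ha)) (Sum.inr (y j b hb)) :=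
    fun j a b ha hb h => adj _ _ (inc1 j a b h)
  have X2 : ∀ (j : Fin 3) (a b : ℤ) (ha hb), a - b = t j ∨ b - a = t j →
      Γ.Reachable (Sum.inl (x (j + 1) a ha)) (Sum.inr (y j b hb)) :=
    fun j a b ha hb h => adj _ _ (inc2 j a b h)
  -- parities
  have ps := D.pars
  have pt' := D.part
  obtain ⟨c0, hc0⟩ := ps 0
  obtain ⟨c1, hc1⟩ := ps 1
  obtain ⟨c2, hc2⟩ := ps 2
  obtain ⟨g0, hg0⟩ := pt' 0
  obtain ⟨g1, hg1⟩ := pt' 1
  -- the points of the orbit 1
  have step : ∀ (a : ℤ) (ha : ∃ k : ℤ, a = e 1 + 2 * k) (ha' : ∃ k : ℤ, a + 2 = e 1 + 2 * k),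
      Γ.Reachable (Sum.inl (x 1 a ha)) (Sum.inl (x 1 (a + 2) ha')) := by
    intro a ha ha'
    have hb : ∃ k : ℤ, a + 1 = f 1 + 2 * k := by
      obtain ⟨k, hk⟩ := ha
      refine ⟨k - c1, ?_⟩
      rw [hs1] at hc1
      push_cast at hc1
      linarith
    refine (X1 1 a (a + 1) ha hb (Or.inr (by rw [hs1]; push_cast; ring))).trans
      (X1 1 (a + 2) (a + 1) ha' hb (Or.inl (by rw [hs1]; push_cast; ring))).symm
  have base : ∀ (n : ℕ) (ha : ∃ k : ℤ, e 1 + 2 * (n : ℤ) = e 1 + 2 * k)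
      (h0 : ∃ k : ℤ, e 1 = e 1 + 2 * k), Γ.Reachable (Sum.inl (x 1 (e 1) h0))
      (Sum.inl (x 1 (e 1 + 2 * (n : ℤ)) ha)) := by
    intro n
    induction n with
    | zero =>
      intro ha h0
      have : x 1 (e 1 + 2 * ((0 : ℕ) : ℤ)) ha = x 1 (e 1) h0 := by
        apply Subtype.ext
        simp [x]
      rw [this]
    | succ n ih =>
      intro ha h0
      have h1 := ih ⟨n, rfl⟩ h0
      have h2 := step (e 1 + 2 * (n : ℤ)) ⟨n, rfl⟩ ⟨n + 1, by ring⟩
      have : x 1 (e 1 + 2 * ((n + 1 : ℕ) : ℤ)) ha = x 1 (e 1 + 2 * (n : ℤ) + 2) ⟨n + 1, by ring⟩ := by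
        apply Subtype.ext
        simp only [x]
        congr 1
        push_cast
        ring
      rw [this]
      exact h1.trans h2
  have hroot : ∃ k : ℤ, e 1 = e 1 + 2 * k := ⟨0, by ring⟩
  set root : X ⊕ Y := Sum.inl (x 1 (e 1) hroot) with hrootdef
  have R1 : ∀ (a : ℤ) (ha : ∃ k : ℤ, a = e 1 + 2 * k), Γ.Reachable root (Sum.inl (x 1 a ha)) := by
    intro a ha
    obtain ⟨k, hk⟩ := ha
    have h1 : 0 ≤ k % (m : ℤ) := Int.emod_nonneg _ (by exact_mod_cast hm.ne')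
    have h3 : (((k % (m : ℤ)).toNat : ℕ) : ℤ) = k % (m : ℤ) := Int.toNat_of_nonneg h1
    have h4 := base (k % (m : ℤ)).toNat ⟨_, rfl⟩ hroot
    have : x 1 (e 1 + 2 * (((k % (m : ℤ)).toNat : ℕ) : ℤ)) ⟨_, rfl⟩ = x 1 a ⟨k, hk⟩ := by
      apply Subtype.ext
      simp only [x]
      rw [pt_eq_iff m hm _ (D.hρ 1), h3, hk]
      refine ⟨-(k / m), ?_⟩
      rw [Int.emod_def]
      ring
    rw [← this]
    exact h4
  have R1l : ∀ (b : ℤ) (hb : ∃ k : ℤ, b = f 1 + 2 * k), Γ.Reachable root (Sum.inr (y 1 b hb)) := by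
    intro b hb
    have ha : ∃ k : ℤ, b - s 1 = e 1 + 2 * k := by
      obtain ⟨k, hk⟩ := hb
      exact ⟨k + c1, by rw [hk]; linarith⟩
    exact (R1 _ ha).trans (X1 1 _ b ha hb (Or.inr (by ring)))
  have R0l : ∀ (b : ℤ) (hb : ∃ k : ℤ, b = f 0 + 2 * k), Γ.Reachable root (Sum.inr (y 0 b hb)) := by
    intro b hb
    have ha : ∃ k : ℤ, b - t 0 = e 1 + 2 * k := by
      obtain ⟨k, hk⟩ := hb
      refine ⟨k + g0, ?_⟩
      have : e (0 + 1) = e 1 := rfl
      rw [this] at hg0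
      rw [hk]; linarith
    exact (R1 _ ha).trans (X2 0 _ b ha hb (Or.inr (by ring)))
  have R0 : ∀ (a : ℤ) (ha : ∃ k : ℤ, a = e 0 + 2 * k), Γ.Reachable root (Sum.inl (x 0 a ha)) := by
    intro a ha
    have hb : ∃ k : ℤ, a + s 0 = f 0 + 2 * k := by
      obtain ⟨k, hk⟩ := ha
      exact ⟨k - c0, by rw [hk]; linarith⟩
    exact (R0l _ hb).trans (X1 0 a _ ha hb (Or.inr (by ring))).symm
  have R2 : ∀ (a : ℤ) (ha : ∃ k : ℤ, a = e 2 + 2 * k), Γ.Reachable root (Sum.inl (x 2 a ha)) := by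
    intro a ha
    have hb : ∃ k : ℤ, a + t 1 = f 1 + 2 * k := by
      obtain ⟨k, hk⟩ := ha
      refine ⟨k - g1, ?_⟩
      have : e (1 + 1) = e 2 := rfl
      rw [this] at hg1
      rw [hk]; linarith
    exact (R1l _ hb).trans (X2 1 a _ ha hb (Or.inr (by ring))).symm
  have R2l : ∀ (b : ℤ) (hb : ∃ k : ℤ, b = f 2 + 2 * k), Γ.Reachable root (Sum.inr (y 2 b hb)) := by
    intro b hb
    have ha : ∃ k : ℤ, b - s 2 = e 2 + 2 * k := by
      obtain ⟨k, hk⟩ := hb
      exact ⟨k + c2, by rw [hk]; linarith⟩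
    exact (R2 _ ha).trans (X1 2 _ b ha hb (Or.inr (by ring)))
  have all : ∀ v : X ⊕ Y, Γ.Reachable root v := by
    rintro (⟨z, hz⟩ | ⟨l, hl⟩)
    · obtain ⟨j, k, hk⟩ := Set.mem_iUnion.mp hz
      subst hk
      fin_cases j
      · exact R0 _ ⟨k, rfl⟩
      · exact R1 _ ⟨k, rfl⟩
      · exact R2 _ ⟨k, rfl⟩
    · obtain ⟨j, k, hk⟩ := Set.mem_iUnion.mp hl
      subst hk
      fin_cases j
      · exact R0l _ ⟨k, rfl⟩
      · exact R1l _ ⟨k, rfl⟩
      · exact R2l _ ⟨k, rfl⟩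
  have : Nonempty (X ⊕ Y) := ⟨root⟩
  exact SimpleGraph.Connected.mk (fun u v => (all u).symm.trans (all v))

/-! ## The example `(30 q)#(10 q + 1, 6 q; 1, 12 q; 10 q - 1, 3)` -/

section concrete

theorem four_cos (x : ℝ) : 4 * Real.cos (Real.pi / 3 + x) * Real.cos x *
    Real.cos (Real.pi / 3 - x) = Real.cos (3 * x) := by
  rw [Real.cos_add, Real.cos_sub, Real.cos_pi_div_three, Real.sin_pi_div_three, Real.cos_three_mul]
  have h3 : Real.sqrt 3 ^ 2 = 3 := Real.sq_sqrt (by norm_num)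
  have hs : Real.sin x ^ 2 = 1 - Real.cos x ^ 2 := by
    have := Real.sin_sq_add_cos_sq x
    linarith
  have e : 4 * (1 / 2 * Real.cos x - Real.sqrt 3 / 2 * Real.sin x) * Real.cos x *
      (1 / 2 * Real.cos x + Real.sqrt 3 / 2 * Real.sin x) =
      Real.cos x ^ 3 - Real.sqrt 3 ^ 2 * Real.sin x ^ 2 * Real.cos x := by ring
  rw [e, h3, hs]
  ring

/-- `cos (π/5)` is between `0.8` and `0.81` -/
theorem c36_bounds : 0.8 ≤ Real.cos (Real.pi / 5) ∧ Real.cos (Real.pi / 5) ≤ 0.81 := by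
  rw [Real.cos_pi_div_five]
  have h1 : (2.2 : ℝ) ≤ Real.sqrt 5 := Real.le_sqrt_of_sq_le (by norm_num)
  have h2 : Real.sqrt 5 ≤ (2.24 : ℝ) := Real.sqrt_le_iff.mpr ⟨by norm_num, by norm_num⟩
  constructor <;> linarith

theorem c36_c72 : 4 * Real.cos (2 * (Real.pi / 5)) * Real.cos (Real.pi / 5) = 1 := by
  rw [Real.cos_two_mul, Real.cos_pi_div_five]
  have h5 : Real.sqrt 5 ^ 2 = 5 := Real.sq_sqrt (by norm_num)
  have h5' : Real.sqrt 5 ^ 3 = 5 * Real.sqrt 5 := by
    rw [pow_succ, h5]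
  have e : 4 * (2 * ((1 + Real.sqrt 5) / 4) ^ 2 - 1) * ((1 + Real.sqrt 5) / 4) =
      ((Real.sqrt 5) ^ 3 + 3 * (Real.sqrt 5) ^ 2 - 5 * Real.sqrt 5 - 7) / 8 := by ring
  rw [e, h5, h5']
  ring

/-- `4 cos a cos b cos c` as a sum -/
theorem four_mul_cos (a b c : ℝ) : 4 * Real.cos a * Real.cos b * Real.cos c =
    Real.cos (a + b + c) + Real.cos (a + b - c) + Real.cos (a - b + c) + Real.cos (a - b - c) := by
  have h1 := Real.two_mul_cos_mul_cos (a + b) c
  have h2 := Real.two_mul_cos_mul_cos (a - b) c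
  have h3 := Real.two_mul_cos_mul_cos a b
  have : 4 * Real.cos a * Real.cos b * Real.cos c =
      2 * (2 * Real.cos a * Real.cos b) * Real.cos c := by ring
  rw [this, h3]
  linarith

variable {q : ℕ}

theorem coprime_15 (he : Even q) : (15 * q + 1).Coprime (2 * (30 * q)) := by
  obtain ⟨r, rfl⟩ := he
  have h1 : (15 * (r + r) + 1).Coprime (15 * (r + r)) := by simp
  have e : 2 * (30 * (r + r)) = 4 * (15 * (r + r)) := by ring
  rw [e]
  apply Nat.Coprime.mul_right _ h1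
  have : (15 * (r + r) + 1).Coprime 2 := by
    rw [Nat.coprime_two_right]
    exact ⟨15 * r, by ring⟩
  exact Nat.Coprime.pow_right 2 this

theorem coprime_17 (h17 : Nat.Coprime 17 q) : (17 : ℕ).Coprime (2 * (30 * q)) := by
  apply Nat.Coprime.mul_right (by norm_num)
  exact Nat.Coprime.mul_right (by norm_num) h17

/-- no line of the orbit `0` contains a point of the orbit `2` -/
theorem no_inc_zero (hq : 2 ≤ q) (he : Even q) (u : ℤ) :
    4 * Real.cos (Real.pi / ((30 * q : ℕ) : ℝ)) *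
      Real.cos ((u : ℝ) * (Real.pi / ((30 * q : ℕ) : ℝ))) ≠ 1 := by
  intro h
  have hq0 : (0 : ℝ) < q := by exact_mod_cast (by omega : 0 < q)
  have hq2 : (2 : ℝ) ≤ q := by exact_mod_cast hq
  have hpi := Real.pi_pos
  set t : ℝ := Real.pi / ((30 * q : ℕ) : ℝ) with ht
  have ht2 : (2 * Real.pi / ((2 * (30 * q) : ℕ) : ℝ)) = t := by
    rw [ht]; push_cast; field_simp
  have hqt : (15 : ℝ) * q * t = Real.pi / 2 := by
    rw [ht]; push_cast; field_simp; norm_num
  have ht0 : 0 < t := by rw [ht]; positivity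
  have ht1 : t ≤ Real.pi / 60 := by
    rw [ht]; push_cast
    apply div_le_div_of_nonneg_left hpi.le (by norm_num) (by linarith)
  have key := galois_cos (N := 2 * (30 * q)) (by omega) (coprime_15 he) (Finset.univ : Finset (Fin 3))
    ![2, 2, -1] ![u + 1, u - 1, 0] (by
      rw [Fin.sum_univ_three, ht2]
      simp only [Matrix.cons_val_zero, Matrix.cons_val_one, Matrix.cons_val]
      push_cast
      have h2 := Real.two_mul_cos_mul_cos ((u : ℝ) * t) t
      rw [show ((u : ℝ) + 1) * t = (u : ℝ) * t + t by ring,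
        show ((u : ℝ) - 1) * t = (u : ℝ) * t - t by ring, zero_mul, Real.cos_zero]
      linarith)
  rw [Fin.sum_univ_three, ht2] at key
  simp only [Matrix.cons_val_zero, Matrix.cons_val_one, Matrix.cons_val] at key
  push_cast at key
  have h2 := Real.two_mul_cos_mul_cos ((15 * q + 1) * (u : ℝ) * t) ((15 * (q : ℝ) + 1) * t)
  rw [show (15 * (q : ℝ) + 1) * ((u : ℝ) + 1) * t =
      (15 * q + 1) * (u : ℝ) * t + (15 * (q : ℝ) + 1) * t by ring,
    show (15 * (q : ℝ) + 1) * ((u : ℝ) - 1) * t =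
      (15 * q + 1) * (u : ℝ) * t - (15 * (q : ℝ) + 1) * t by ring, mul_zero, zero_mul,
    Real.cos_zero] at key
  have h3 : Real.cos ((15 * (q : ℝ) + 1) * t) = -Real.sin t := by
    rw [show (15 * (q : ℝ) + 1) * t = t + Real.pi / 2 by rw [add_mul, hqt]; ring,
      Real.cos_add_pi_div_two]
  rw [h3] at h2
  set X := Real.cos ((15 * q + 1) * (u : ℝ) * t) with hX
  have hX1 : X ≤ 1 := Real.cos_le_one _
  have hX2 : -1 ≤ X := Real.neg_one_le_cos _
  have hs1 : Real.sin t ≤ t := Real.sin_le ht0.le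
  have hs0 : 0 ≤ Real.sin t := Real.sin_nonneg_of_nonneg_of_le_pi ht0.le (by linarith)
  have hpi4 := Real.pi_lt_d2
  have hs2 : Real.sin t ≤ 0.1 := by linarith
  have h4 : 4 * X * Real.sin t = -1 := by linarith
  nlinarith

/-- no line of the orbit `1` contains a point of the orbit `0` -/
theorem no_inc_one (hq : 2 ≤ q) (h17 : Nat.Coprime 17 q) (u : ℤ) :
    Real.cos ((u : ℝ) * (Real.pi / ((30 * q : ℕ) : ℝ))) ≠
      4 * Real.cos (2 * (Real.pi / 5)) * Real.cos (Real.pi / ((30 * q : ℕ) : ℝ)) *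
        Real.cos (Real.pi / 3 + Real.pi / ((30 * q : ℕ) : ℝ)) := by
  intro h
  have hq0 : (0 : ℝ) < q := by exact_mod_cast (by omega : 0 < q)
  have hq2 : (2 : ℝ) ≤ q := by exact_mod_cast hq
  have hpi := Real.pi_pos
  set t : ℝ := Real.pi / ((30 * q : ℕ) : ℝ) with ht
  have ht2 : (2 * Real.pi / ((2 * (30 * q) : ℕ) : ℝ)) = t := by
    rw [ht]; push_cast; field_simp
  have hqt : (q : ℝ) * t = Real.pi / 30 := by
    rw [ht]; push_cast; field_simp
  have ht0 : 0 < t := by rw [ht]; positivity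
  have ht1 : t ≤ Real.pi / 60 := by
    rw [ht]; push_cast
    apply div_le_div_of_nonneg_left hpi.le (by norm_num) (by linarith)
  have key := galois_cos (N := 2 * (30 * q)) (by omega) (coprime_17 h17)
    (Finset.univ : Finset (Fin 5))
    ![1, -1, -1, -1, -1] ![u, 22 * q + 2, 2 * q, 22 * q, 2 * q - 2] (by
      rw [Fin.sum_univ_five, ht2]
      simp only [Matrix.cons_val_zero, Matrix.cons_val_one, Matrix.cons_val]
      push_cast
      have h2 := four_mul_cos (2 * (Real.pi / 5)) t (Real.pi / 3 + t)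
      rw [h, h2,
        show 2 * (Real.pi / 5) + t + (Real.pi / 3 + t) = (22 * (q : ℝ) + 2) * t by
          rw [add_mul, mul_assoc, hqt]; ring,
        show 2 * (Real.pi / 5) + t - (Real.pi / 3 + t) = 2 * (q : ℝ) * t by
          rw [mul_assoc, hqt]; ring,
        show 2 * (Real.pi / 5) - t + (Real.pi / 3 + t) = 22 * (q : ℝ) * t by
          rw [mul_assoc, hqt]; ring,
        show 2 * (Real.pi / 5) - t - (Real.pi / 3 + t) = (2 * (q : ℝ) - 2) * t by
          rw [sub_mul, mul_assoc, hqt]; ring]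
      ring)
  rw [Fin.sum_univ_five, ht2] at key
  simp only [Matrix.cons_val_zero, Matrix.cons_val_one, Matrix.cons_val] at key
  push_cast at key
  have h2 := four_mul_cos (17 * (2 * (Real.pi / 5))) (17 * t) (17 * (Real.pi / 3 + t))
  rw [show 17 * (2 * (Real.pi / 5)) + 17 * t + 17 * (Real.pi / 3 + t) =
      17 * (22 * (q : ℝ) + 2) * t by
        rw [mul_assoc, add_mul, mul_assoc, hqt]; ring,
    show 17 * (2 * (Real.pi / 5)) + 17 * t - 17 * (Real.pi / 3 + t) = 17 * (2 * (q : ℝ)) * t by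
        rw [mul_assoc, mul_assoc, hqt]; ring,
    show 17 * (2 * (Real.pi / 5)) - 17 * t + 17 * (Real.pi / 3 + t) = 17 * (22 * (q : ℝ)) * t by
        rw [mul_assoc, mul_assoc, hqt]; ring,
    show 17 * (2 * (Real.pi / 5)) - 17 * t - 17 * (Real.pi / 3 + t) =
      17 * (2 * (q : ℝ) - 2) * t by
        rw [mul_assoc, sub_mul, mul_assoc, hqt]; ring] at h2
  have h3 : Real.cos (17 * (2 * (Real.pi / 5))) = -Real.cos (Real.pi / 5) := by
    rw [show 17 * (2 * (Real.pi / 5)) = (Real.pi - Real.pi / 5) + (3 : ℕ) * (2 * Real.pi) by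
      push_cast; ring, Real.cos_add_nat_mul_two_pi, Real.cos_pi_sub]
  have h4 : Real.cos (17 * (Real.pi / 3 + t)) = Real.cos (Real.pi / 3 - 17 * t) := by
    rw [show 17 * (Real.pi / 3 + t) = -(Real.pi / 3 - 17 * t) + (3 : ℕ) * (2 * Real.pi) by
      push_cast; ring, Real.cos_add_nat_mul_two_pi, Real.cos_neg]
  rw [h3, h4] at h2
  have h5 := Real.two_mul_cos_mul_cos (17 * t) (Real.pi / 3 - 17 * t)
  rw [show 17 * t + (Real.pi / 3 - 17 * t) = Real.pi / 3 by ring, Real.cos_pi_div_three] at h5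
  have h6 : 1 / 2 ≤ Real.cos (17 * t - (Real.pi / 3 - 17 * t)) := by
    rw [← Real.cos_pi_div_three, ← Real.cos_abs (17 * t - (Real.pi / 3 - 17 * t))]
    apply Real.cos_le_cos_of_nonneg_of_le_pi (abs_nonneg _) (by linarith)
    rw [abs_le]
    constructor <;> linarith
  have h7 := c36_bounds.1
  have h8 := Real.neg_one_le_cos (17 * (u : ℝ) * t)
  set Y := Real.cos (17 * t) * Real.cos (Real.pi / 3 - 17 * t) with hY
  have h9 : 1 / 2 ≤ Y := by linarith
  have h10 : Real.cos (17 * (u : ℝ) * t) = -(4 * Real.cos (Real.pi / 5) * Y) := by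
    have : 4 * -Real.cos (Real.pi / 5) * Real.cos (17 * t) * Real.cos (Real.pi / 3 - 17 * t) =
      -(4 * Real.cos (Real.pi / 5) * Y) := by rw [hY]; ring
    rw [← this, h2]
    linarith
  nlinarith

/-- the radii and distances satisfy all the conditions -/
theorem data_example (hq : 2 ≤ q) (he : Even q) (h17 : Nat.Coprime 17 q) :
    ∃ ρ d : Fin 3 → ℝ, Data (30 * q) ![10 * q + 1, 1, 10 * q - 1] ![6 * q, 12 * q, 3] ρ d
      ![0, 1, 0] ![1, 0, 1] := by
  have hq0 : (0 : ℝ) < q := by exact_mod_cast (by omega : 0 < q)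
  have hq2 : (2 : ℝ) ≤ q := by exact_mod_cast hq
  have hpi := Real.pi_pos
  have hpi4 := Real.pi_lt_d2
  have hn0 := no_inc_zero hq he
  have hn1 := no_inc_one hq h17
  set t : ℝ := Real.pi / ((30 * q : ℕ) : ℝ) with ht
  have hqt : (q : ℝ) * t = Real.pi / 30 := by
    rw [ht]; push_cast; field_simp
  have ht0 : 0 < t := by rw [ht]; positivity
  have ht1 : t ≤ Real.pi / 60 := by
    rw [ht]; push_cast
    apply div_le_div_of_nonneg_left hpi.le (by norm_num) (by linarith)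
  obtain ⟨hc1, hc2⟩ := c36_bounds
  have hcc := c36_c72
  set c36 := Real.cos (Real.pi / 5) with hc36
  set c72 := Real.cos (2 * (Real.pi / 5)) with hc72
  set C := Real.cos (Real.pi / 3 + t) with hC
  have hC1 : C < 1 / 2 := by
    rw [hC, ← Real.cos_pi_div_three]
    exact Real.cos_lt_cos_of_nonneg_of_le_pi (by linarith) (by linarith) (by linarith)
  have hC0 : 0 < C := Real.cos_pos_of_mem_Ioo ⟨by linarith, by linarith⟩
  have hk0 : 0.99 ≤ Real.cos t := by
    have h1 := @Real.one_sub_sq_div_two_le_cos t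
    nlinarith
  have hk1 : Real.cos t ≤ 1 := Real.cos_le_one _
  have hk3 : 0.98 ≤ Real.cos (3 * t) := by
    have h1 := @Real.one_sub_sq_div_two_le_cos (3 * t)
    nlinarith
  have h4C : 1 < 4 * C * Real.cos t := by
    have h1 := Real.two_mul_cos_mul_cos (Real.pi / 3 + t) t
    rw [show Real.pi / 3 + t - t = Real.pi / 3 by ring, Real.cos_pi_div_three] at h1
    have h2 : 0 < Real.cos (Real.pi / 3 + t + t) :=
      Real.cos_pos_of_mem_Ioo ⟨by linarith, by linarith⟩
    rw [hC]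
    linarith
  have hf := four_cos t
  have hc36' : c36 ≠ 0 := by linarith
  have hc36p : 0 < c36 := by linarith
  have hρ1 : C / c36 ≤ 0.625 := by
    rw [div_le_iff₀ hc36p]
    linarith
  have hρ1p : 0 < C / c36 := by positivity
  have a1 : Real.cos (((10 * q + 1 : ℕ) : ℝ) * t) = C := by
    rw [hC]; congr 1; push_cast; rw [add_mul, mul_assoc, hqt]; ring
  have a2 : Real.cos (((1 : ℕ) : ℝ) * t) = Real.cos t := by
    rw [Nat.cast_one, one_mul]
  have a3 : Real.cos (((10 * q - 1 : ℕ) : ℝ) * t) = Real.cos (Real.pi / 3 - t) := by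
    congr 1
    rw [Nat.cast_sub (by omega)]; push_cast; rw [sub_mul, mul_assoc, hqt]; ring
  have a4 : Real.cos (((6 * q : ℕ) : ℝ) * t) = c36 := by
    rw [hc36]; congr 1; push_cast; rw [mul_assoc, hqt]; ring
  have a5 : Real.cos (((12 * q : ℕ) : ℝ) * t) = c72 := by
    rw [hc72]; congr 1; push_cast; rw [mul_assoc, hqt]; ring
  have a6 : Real.cos (((3 : ℕ) : ℝ) * t) = Real.cos (3 * t) := by
    norm_num
  have hd1 : C / c36 * Real.cos t = 4 * c72 * Real.cos t * C := by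
    have : C / c36 = 4 * c72 * C := by
      rw [div_eq_iff hc36']
      calc C = C * (4 * c72 * c36) := by rw [hcc, mul_one]
        _ = _ := by ring
    rw [this]; ring
  have r01 : C / c36 < 1 := by linarith
  have d01 : C < C / c36 * Real.cos t := by
    have : C / c36 * Real.cos t = C * (Real.cos t / c36) := by ring
    rw [this]
    have : 1 < Real.cos t / c36 := by
      rw [lt_div_iff₀ hc36p]; linarith
    nlinarith
  have d12 : C / c36 * Real.cos t < Real.cos (3 * t) := by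
    have h2 := mul_le_mul_of_nonneg_left hk1 hρ1p.le
    rw [mul_one] at h2
    linarith
  refine ⟨![1, C / c36, 4 * C * Real.cos t], ![C, C / c36 * Real.cos t, Real.cos (3 * t)],
    ⟨by omega, ?_, ?_, ?_, ?_, ?_, ?_, ?_, ?_, ?_, ?_⟩⟩
  · intro j
    fin_cases j
    · exact one_pos
    · exact hρ1p
    · show 0 < 4 * C * Real.cos t
      linarith
  · intro j
    fin_cases j
    · exact hC0
    · show 0 < C / c36 * Real.cos t
      linarith
    · show 0 < Real.cos (3 * t)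
      linarith
  · intro j
    fin_cases j
    · show C = 1 * Real.cos (((10 * q + 1 : ℕ) : ℝ) * t)
      rw [a1, one_mul]
    · show C / c36 * Real.cos t = C / c36 * Real.cos (((1 : ℕ) : ℝ) * t)
      rw [a2]
    · show Real.cos (3 * t) = 4 * C * Real.cos t * Real.cos (((10 * q - 1 : ℕ) : ℝ) * t)
      rw [a3, ← hf]
  · intro j
    fin_cases j
    · show C = C / c36 * Real.cos (((6 * q : ℕ) : ℝ) * t)
      rw [a4, div_mul_cancel₀ _ hc36']
    · show C / c36 * Real.cos t = 4 * C * Real.cos t * Real.cos (((12 * q : ℕ) : ℝ) * t)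
      rw [a5, hd1]
      ring
    · show Real.cos (3 * t) = 1 * Real.cos (((3 : ℕ) : ℝ) * t)
      rw [a6, one_mul]
  · intro j u
    fin_cases j
    · show 4 * C * Real.cos t * Real.cos ((u : ℝ) * t) ≠ C
      intro h
      apply hn0 u
      have : C * (4 * Real.cos t * Real.cos ((u : ℝ) * t) - 1) = 0 := by linarith
      rcases mul_eq_zero.mp this with h' | h'
      · exact absurd h' hC0.ne'
      · linarith
    · show 1 * Real.cos ((u : ℝ) * t) ≠ C / c36 * Real.cos t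
      rw [one_mul, hd1]
      exact hn1 u
    · show C / c36 * Real.cos ((u : ℝ) * t) ≠ Real.cos (3 * t)
      have h1 := Real.cos_le_one ((u : ℝ) * t)
      have h2 := mul_le_mul_of_nonneg_left h1 hρ1p.le
      rw [mul_one] at h2
      exact (lt_of_le_of_lt (h2.trans hρ1) (by linarith)).ne
  · intro i j hij
    fin_cases i <;> fin_cases j <;> first | rfl | exfalso
    · have : (1 : ℝ) = C / c36 := hij
      linarith
    · have : (1 : ℝ) = 4 * C * Real.cos t := hij
      linarith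
    · have : C / c36 = (1 : ℝ) := hij
      linarith
    · have : C / c36 = 4 * C * Real.cos t := hij
      linarith
    · have : 4 * C * Real.cos t = (1 : ℝ) := hij
      linarith
    · have : 4 * C * Real.cos t = C / c36 := hij
      linarith
  · intro i j hij
    fin_cases i <;> fin_cases j <;> first | rfl | exfalso
    · have : C = C / c36 * Real.cos t := hij
      linarith
    · have : C = Real.cos (3 * t) := hij
      linarith
    · have : C / c36 * Real.cos t = C := hij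
      linarith
    · have : C / c36 * Real.cos t = Real.cos (3 * t) := hij
      linarith
    · have : Real.cos (3 * t) = C := hij
      linarith
    · have : Real.cos (3 * t) = C / c36 * Real.cos t := hij
      linarith
  · intro j
    fin_cases j
    · exact ⟨-5 * q, by
        show (1 : ℤ) - ((10 * q + 1 : ℕ) : ℤ) = 0 + 2 * (-5 * q)
        push_cast; ring⟩
    · exact ⟨-1, by
        show (0 : ℤ) - ((1 : ℕ) : ℤ) = 1 + 2 * (-1)
        norm_num⟩
    · exact ⟨1 - 5 * q, by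
        show (1 : ℤ) - ((10 * q - 1 : ℕ) : ℤ) = 0 + 2 * (1 - 5 * q)
        omega⟩
  · intro j
    fin_cases j
    · exact ⟨-3 * q, by
        show (1 : ℤ) - ((6 * q : ℕ) : ℤ) = 1 + 2 * (-3 * q)
        push_cast; ring⟩
    · exact ⟨-6 * q, by
        show (0 : ℤ) - ((12 * q : ℕ) : ℤ) = 0 + 2 * (-6 * q)
        push_cast; ring⟩
    · exact ⟨-1, by
        show (1 : ℤ) - ((3 : ℕ) : ℤ) = 0 + 2 * (-1)
        norm_num⟩
  · intro j
    fin_cases j
    · show 1 ≤ 10 * q + 1 ∧ 2 * (10 * q + 1) < 30 * q ∧ 1 ≤ 6 * q ∧ 2 * (6 * q) < 30 * q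
      omega
    · show 1 ≤ 1 ∧ 2 * 1 < 30 * q ∧ 1 ≤ 12 * q ∧ 2 * (12 * q) < 30 * q
      omega
    · show 1 ≤ 10 * q - 1 ∧ 2 * (10 * q - 1) < 30 * q ∧ 1 ≤ 3 ∧ 2 * 3 < 30 * q
      omega

/-- consequences of the equality of two multisets with three elements -/
theorem triple_eq {x y z a b c : ℤ} (h : ({x, y, z} : Multiset ℤ) = {a, b, c}) :
    x + y + z = a + b + c ∧ (a = x ∨ a = y ∨ a = z) ∧ (b = x ∨ b = y ∨ b = z) ∧
      (c = x ∨ c = y ∨ c = z) ∧ (x = a ∨ x = b ∨ x = c) ∧ (y = a ∨ y = b ∨ y = c) ∧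
      (z = a ∨ z = b ∨ z = c) := by
  refine ⟨?_, ?_, ?_, ?_, ?_, ?_, ?_⟩
  · have := congrArg Multiset.sum h
    simp only [Multiset.insert_eq_cons, Multiset.sum_cons, Multiset.sum_singleton] at this
    linarith
  · have : a ∈ ({x, y, z} : Multiset ℤ) := by rw [h]; simp
    simpa using this
  · have : b ∈ ({x, y, z} : Multiset ℤ) := by rw [h]; simp
    simpa using this
  · have : c ∈ ({x, y, z} : Multiset ℤ) := by rw [h]; simp
    simpa using this
  · have : x ∈ ({a, b, c} : Multiset ℤ) := by rw [← h]; simp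
    simpa using this
  · have : y ∈ ({a, b, c} : Multiset ℤ) := by rw [← h]; simp
    simpa using this
  · have : z ∈ ({a, b, c} : Multiset ℤ) := by rw [← h]; simp
    simpa using this

theorem sporadic_example (hq : 2 ≤ q) (he : Even q) :
    Sporadic (30 * q) ![10 * q + 1, 1, 10 * q - 1] ![6 * q, 12 * q, 3] := by
  obtain ⟨r, hr⟩ := he
  have es : entries ![10 * q + 1, 1, 10 * q - 1] =
      ({10 * (q : ℤ) + 1, 1, 10 * (q : ℤ) - 1} : Multiset ℤ) := by
    unfold entries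
    simp only [Matrix.cons_val_zero, Matrix.cons_val_one, Matrix.cons_val]
    rw [Nat.cast_sub (by omega)]
    push_cast
    rfl
  have et : entries ![6 * q, 12 * q, 3] = ({6 * (q : ℤ), 12 * (q : ℤ), 3} : Multiset ℤ) := by
    unfold entries
    simp only [Matrix.cons_val_zero, Matrix.cons_val_one, Matrix.cons_val]
    push_cast
    rfl
  unfold Sporadic
  rw [es, et]
  refine ⟨?_, ?_, ?_⟩
  · intro h
    have := (triple_eq h).1
    omega
  · rintro ⟨p, u, v, hp, hu, hv, ⟨hm, hS, hT⟩ | ⟨hm, hS, hT⟩ | ⟨hm, hS, hT⟩ | ⟨hm, hS, hT⟩⟩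
    · have h1 := triple_eq hS
      have h2 := triple_eq hT
      omega
    · have h1 := triple_eq hS
      have h2 := triple_eq hT
      omega
    · have h1 := triple_eq hS
      have h2 := triple_eq hT
      omega
    · have h1 := triple_eq hS
      have h2 := triple_eq hT
      omega
  · rintro ⟨p, u, v, hp, hu, hv, ⟨hm, hS, hT⟩ | ⟨hm, hS, hT⟩ | ⟨hm, hS, hT⟩ | ⟨hm, hS, hT⟩⟩
    · have h1 := triple_eq hS
      have h2 := triple_eq hT
      omega
    · have h1 := triple_eq hS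
      have h2 := triple_eq hT
      omega
    · have h1 := triple_eq hS
      have h2 := triple_eq hT
      omega
    · have h1 := triple_eq hS
      have h2 := triple_eq hT
      omega

end concrete

/-- There are connected sporadic 3-astral 4-configurations for infinitely many `m`: for every `M`
there is `m > M`, a sporadic cohort, and a connected 3-astral 4-configuration with a symbol of this
cohort (and `m` points in every orbit). -/
theorem result : ∀ M : ℕ, ∃ m : ℕ, M < m ∧ ∃ (s t : Fin 3 → ℕ) (P : Fin 3 → Set ℂ)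
    (L : Fin 3 → Set (Set ℂ)), ThreeAstral m s t P L ∧
      IsConfigurationFour (3 * m) (⋃ j, P j) (⋃ j, L j) ∧
      (incidenceGraph (⋃ j, P j) (⋃ j, L j)).Connected ∧ Sporadic m s t := by
  intro M
  have h2 : 2 ≤ 2 ^ (M + 1) := by
    calc 2 = 2 ^ 1 := rfl
      _ ≤ 2 ^ (M + 1) := Nat.pow_le_pow_right (by norm_num) (by omega)
  have he : Even (2 ^ (M + 1)) := by
    rw [Nat.even_pow]
    exact ⟨even_two, by omega⟩
  have h17 : Nat.Coprime 17 (2 ^ (M + 1)) := Nat.Coprime.pow_right _ (by norm_num)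
  obtain ⟨ρ, d, D⟩ := data_example h2 he h17
  have hM : M + 1 < 2 ^ (M + 1) := Nat.lt_two_pow_self
  refine ⟨30 * 2 ^ (M + 1), by omega, _, _, _, _, threeAstral_of_data D,
    isConfigurationFour D.hm (threeAstral_of_data D), connected_of_data D rfl,
    sporadic_example h2 he⟩

end Pool.Agent.Results.MP_abecca_co.InfinitelyManySporadic
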